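import Pool.Agent.Helper716_Lang.Twist

/-!
# Real rational curves on complete intersections in real forms of weighted projective spaces

`w_i ≥ 1` are weights, `π` is an involution of the indices preserving the weights, and the real
numbers `ε_i` satisfy `ε_i * ε_{π i} = (-1) ^ w_i`.  The conjugate linear map
`(J z)_i = ε_i * conj (z_{π i})` induces a real structure on the weighted projective space, because
`J ∘ J` is the action of `-1`.  The weighted homogeneous polynomials `f_j` of degrees `d_j ≥ 1` with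
`∑ d_j < ∑ w_i` span a space stable under `f ↦ conj ∘ f ∘ J`, and they have no common zero that is a
real point.  Then there are binary forms `s_i` of degree `w_i` with
`s (x, y) = J (s (-conj y, conj x))` and `f_j (s) = 0` for all `j`, and `s` is not constant as a map
to the weighted projective space: it is a nonconstant real map from the projective line with the
antipodal real structure, which is the conic `x ^ 2 + y ^ 2 + z ^ 2 = 0`.
-/

set_option autoImplicit false

namespace Pool.Agent.Results.MP_73c785_ag.RealForms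

open MvPolynomial

/-- A complete intersection without real points and with `∑ d_j < ∑ w_i` in a real form of a
weighted projective space receives a nonconstant real map from the conic without real points. -/
theorem result (N r : ℕ) (w : Fin N → ℕ) (hw : ∀ i, 1 ≤ w i)
    (π : Fin N → Fin N) (hππ : ∀ i, π (π i) = i) (hwπ : ∀ i, w (π i) = w i)
    (ε : Fin N → ℝ) (hε : ∀ i, ε i * ε (π i) = (-1) ^ w i)
    (d : Fin r → ℕ) (hd : ∀ j, 1 ≤ d j) (hwd : ∑ j, d j < ∑ i, w i)
    (f : Fin r → MvPolynomial (Fin N) ℂ) (hf : ∀ j, (f j).IsWeightedHomogeneous w (d j))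
    (hreal : ∀ j, ∃ c : Fin r → ℂ, ∀ z : Fin N → ℂ,
      (starRingEnd ℂ) (eval (fun i => (ε i : ℂ) * (starRingEnd ℂ) (z (π i))) (f j)) =
        ∑ k, c k * eval z (f k))
    (hnoreal : ∀ z : Fin N → ℂ, z ≠ 0 → (∀ j, eval z (f j) = 0) → ∀ t : ℂ,
      (fun i => (ε i : ℂ) * (starRingEnd ℂ) (z (π i))) ≠ fun i => t ^ w i * z i) :
    ∃ s : Fin N → MvPolynomial (Fin 2) ℂ,
      (∀ i, (s i).IsHomogeneous (w i)) ∧
      (∀ (i : Fin N) (x y : ℂ), eval ![x, y] (s i) =
        (ε i : ℂ) * (starRingEnd ℂ) (eval ![-(starRingEnd ℂ) y, (starRingEnd ℂ) x] (s (π i)))) ∧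
      (∀ j, aeval s (f j) = 0) ∧
      ∃ p q : Fin 2 → ℂ, (fun i => eval p (s i)) ≠ 0 ∧ (fun i => eval q (s i)) ≠ 0 ∧
        ∀ t : ℂ, (fun i => eval p (s i)) ≠ fun i => t ^ w i * eval q (s i) := by
  obtain ⟨s, hs, hs0, hsf⟩ :=
    Pool.Agent.Helper716_Lang.Tw.twisted w π ε hππ hwπ hε hw d hd hwd f hf hreal
  have hsym : ∀ (i : Fin N) (x y : ℂ), eval ![x, y] (s i) =
      (ε i : ℂ) * (starRingEnd ℂ) (eval ![-(starRingEnd ℂ) y, (starRingEnd ℂ) x] (s (π i))) := by
    intro i x y
    have h1 := congrFun hs.2 i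
    rw [Pool.Agent.Helper716_Lang.Tw.rho_apply] at h1
    conv_lhs => rw [← h1]
    rw [map_mul, eval_C, Pool.Agent.Helper716_Lang.Tw.eval_sig]
  refine ⟨s, hs.1, hsym, hsf, ?_⟩
  obtain ⟨i, hi⟩ : ∃ i, s i ≠ 0 := by
    by_contra hcon
    push Not at hcon
    exact hs0 (funext hcon)
  obtain ⟨v, hv⟩ : ∃ v : Fin 2 → ℂ, eval v (s i) ≠ 0 := by
    by_contra hcon
    push Not at hcon
    exact hi (MvPolynomial.funext fun v => by rw [hcon v, map_zero])
  have hv2 : v = ![v 0, v 1] := by
    funext l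
    fin_cases l <;> rfl
  have hp : (fun i => eval v (s i)) ≠ 0 := fun h => hv (congrFun h i)
  have hJ : (fun i => eval v (s i)) = fun i => (ε i : ℂ) * (starRingEnd ℂ)
      (eval ![-(starRingEnd ℂ) (v 1), (starRingEnd ℂ) (v 0)] (s (π i))) := by
    funext l
    rw [← hsym l (v 0) (v 1), ← hv2]
  have hq : (fun i => eval ![-(starRingEnd ℂ) (v 1), (starRingEnd ℂ) (v 0)] (s i)) ≠ 0 := by
    intro h
    apply hp
    rw [hJ]
    funext l
    have h1 := congrFun h (π l)
    simp only [Pi.zero_apply] at h1 ⊢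
    rw [h1, map_zero, mul_zero]
  refine ⟨v, ![-(starRingEnd ℂ) (v 1), (starRingEnd ℂ) (v 0)], hp, hq, fun t => ?_⟩
  rw [hJ]
  refine hnoreal (fun i => eval ![-(starRingEnd ℂ) (v 1), (starRingEnd ℂ) (v 0)] (s i)) hq
    (fun j => ?_) t
  have h1 := congrArg (eval ![-(starRingEnd ℂ) (v 1), (starRingEnd ℂ) (v 0)]) (hsf j)
  rw [map_zero] at h1
  rw [← h1, aeval_def, eval₂_eq, map_sum, eval_eq _ (f j)]
  refine Finset.sum_congr rfl fun γ _ => ?_
  rw [map_mul, map_prod]
  simp

end Pool.Agent.Results.MP_73c785_ag.RealForms
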